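import Mathlib

set_option autoImplicit false

/-!
# Supersolutions of the Liouville equation on the plane can have any finite total area

The function `u(x, y) = - log (cosh x) - c * y ^ 2` satisfies
`Δ u = - 1 / cosh x ^ 2 - 2 * c ≤ - exp (2 * u)`, and `∫ exp (2 * u) = 2 * sqrt (π / (2 * c))`.
-/

namespace Pool.Agent.Results.MP_3ddb5a_an.AreaUnbounded

open MeasureTheory Real Filter Topology

/-- The two coordinate functionals on the Euclidean plane. -/
private noncomputable abbrev p (i : Fin 2) : EuclideanSpace ℝ (Fin 2) →L[ℝ] ℝ :=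
  EuclideanSpace.proj i

private theorem hasDerivAt_logcosh (t : ℝ) :
    HasDerivAt (fun t : ℝ => Real.log (Real.cosh t)) (Real.sinh t / Real.cosh t) t :=
  (Real.hasDerivAt_cosh t).log (Real.cosh_pos t).ne'

private theorem hasDerivAt_tanhlike (t : ℝ) :
    HasDerivAt (fun t : ℝ => Real.sinh t / Real.cosh t) (1 / Real.cosh t ^ 2) t := by
  have h := (Real.hasDerivAt_sinh t).div (Real.hasDerivAt_cosh t) (Real.cosh_pos t).ne'
  have e : (Real.cosh t * Real.cosh t - Real.sinh t * Real.sinh t) / Real.cosh t ^ 2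
      = 1 / Real.cosh t ^ 2 := by
    congr 1
    have := Real.cosh_sq t
    nlinarith
  rw [e] at h
  exact h

private theorem hasFDerivAt_u (c : ℝ) (x : EuclideanSpace ℝ (Fin 2)) :
    HasFDerivAt (fun x : EuclideanSpace ℝ (Fin 2) => -Real.log (Real.cosh (p 0 x)) - c * (p 1 x) ^ 2)
      ((-(Real.sinh (p 0 x) / Real.cosh (p 0 x))) • p 0 - (2 * c * p 1 x) • p 1) x := by
  have h0 : HasFDerivAt (fun x : EuclideanSpace ℝ (Fin 2) => p 0 x) (p 0) x := (p 0).hasFDerivAt
  have h1 : HasFDerivAt (fun x : EuclideanSpace ℝ (Fin 2) => p 1 x) (p 1) x := (p 1).hasFDerivAt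
  have a := ((hasDerivAt_logcosh (p 0 x)).comp_hasFDerivAt x h0).neg
  have b := (h1.pow 2).const_mul c
  have := a.sub b
  refine (this.congr_fderiv ?_)
  ext v
  simp
  ring

private theorem hasFDerivAt_du (c : ℝ) (x : EuclideanSpace ℝ (Fin 2)) :
    HasFDerivAt (fun x : EuclideanSpace ℝ (Fin 2) =>
      (-(Real.sinh (p 0 x) / Real.cosh (p 0 x))) • p 0 - (2 * c * p 1 x) • p 1)
      ((-((1 / Real.cosh (p 0 x) ^ 2) • p 0)).smulRight (p 0)
        - ((2 * c) • p 1).smulRight (p 1)) x := by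
  have h0 : HasFDerivAt (fun x : EuclideanSpace ℝ (Fin 2) => p 0 x) (p 0) x := (p 0).hasFDerivAt
  have h1 : HasFDerivAt (fun x : EuclideanSpace ℝ (Fin 2) => p 1 x) (p 1) x := (p 1).hasFDerivAt
  have a := (((hasDerivAt_tanhlike (p 0 x)).comp_hasFDerivAt x h0).neg).smul_const (p 0)
  have b := (h1.const_mul (2 * c)).smul_const (p 1)
  exact a.sub b

private theorem laplacian_u (c : ℝ) (x : EuclideanSpace ℝ (Fin 2)) :
    Laplacian.laplacian
      (fun x : EuclideanSpace ℝ (Fin 2) => -Real.log (Real.cosh (p 0 x)) - c * (p 1 x) ^ 2) x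
      = -(1 / Real.cosh (p 0 x) ^ 2) - 2 * c := by
  rw [InnerProductSpace.laplacian_eq_iteratedFDeriv_orthonormalBasis _
    (EuclideanSpace.basisFun (Fin 2) ℝ)]
  have e1 : fderiv ℝ
      (fun x : EuclideanSpace ℝ (Fin 2) => -Real.log (Real.cosh (p 0 x)) - c * (p 1 x) ^ 2)
      = fun x => (-(Real.sinh (p 0 x) / Real.cosh (p 0 x))) • p 0 - (2 * c * p 1 x) • p 1 := by
    funext y
    exact (hasFDerivAt_u c y).fderiv
  simp only [iteratedFDeriv_two_apply]
  rw [e1, (hasFDerivAt_du c x).fderiv]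
  simp [Fin.sum_univ_two]

private theorem tendsto_tanh_atTop :
    Tendsto (fun t : ℝ => Real.sinh t / Real.cosh t) atTop (𝓝 1) := by
  have h : ∀ t : ℝ, Real.sinh t / Real.cosh t = 1 - 2 * Real.exp (-(2 * t)) / (1 + Real.exp (-(2 * t))) := by
    intro t
    have hp : 0 < 1 + Real.exp (-(2 * t)) := by positivity
    have hc := (Real.cosh_pos t).ne'
    have e1 : Real.exp (-(2 * t)) = Real.exp (-t) * Real.exp (-t) := by
      rw [← Real.exp_add]; ring_nf
    have e2 : Real.exp t * Real.exp (-t) = 1 := by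
      rw [← Real.exp_add]; simp
    rw [div_eq_iff hc, sub_mul, one_mul, div_mul_eq_mul_div, eq_sub_iff_add_eq, ← eq_sub_iff_add_eq',
      div_eq_iff hp.ne', Real.cosh_eq, Real.sinh_eq, e1]
    linear_combination Real.exp (-t) * e2
  have h2 : Tendsto (fun t : ℝ => Real.exp (-(2 * t))) atTop (𝓝 0) :=
    Real.tendsto_exp_neg_atTop_nhds_zero.comp
      (tendsto_id.const_mul_atTop (by norm_num : (0 : ℝ) < 2))
  have h3 : Tendsto (fun t : ℝ => 1 - 2 * Real.exp (-(2 * t)) / (1 + Real.exp (-(2 * t)))) atTop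
      (𝓝 (1 - 2 * 0 / (1 + 0))) := by
    refine tendsto_const_nhds.sub ((h2.const_mul 2).div (tendsto_const_nhds.add h2) (by norm_num))
  simp only [h]
  simpa using h3

private theorem tendsto_tanh_atBot :
    Tendsto (fun t : ℝ => Real.sinh t / Real.cosh t) atBot (𝓝 (-1)) := by
  have h := (tendsto_tanh_atTop.comp tendsto_neg_atBot_atTop).neg
  refine h.congr ?_
  intro t
  simp [Function.comp, neg_div]

private theorem integrable_sech :
    Integrable (fun t : ℝ => 1 / Real.cosh t ^ 2) := by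
  refine integrable_inv_one_add_sq.mono' ?_ (Eventually.of_forall fun t => ?_)
  · refine Continuous.aestronglyMeasurable ?_
    exact continuous_const.div (Real.continuous_cosh.pow 2) (fun t => by positivity)
  · rw [Real.norm_eq_abs, abs_of_nonneg (by positivity), one_div]
    refine inv_anti₀ (by positivity) ?_
    have h1 : |t| ≤ Real.sinh |t| := Real.self_le_sinh_iff.mpr (abs_nonneg t)
    have h2 : t ^ 2 ≤ Real.sinh t ^ 2 := by
      rw [← sq_abs t, ← sq_abs (Real.sinh t), Real.abs_sinh]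
      exact pow_le_pow_left₀ (abs_nonneg t) h1 2
    rw [Real.cosh_sq]
    linarith

private theorem integral_sech : ∫ t : ℝ, 1 / Real.cosh t ^ 2 = 2 := by
  have := integral_of_hasDerivAt_of_tendsto (fun t => hasDerivAt_tanhlike t) integrable_sech
    tendsto_tanh_atBot tendsto_tanh_atTop
  rw [this]; norm_num

private theorem exp_two_u (c : ℝ) (a b : ℝ) :
    Real.exp (2 * (-Real.log (Real.cosh a) - c * b ^ 2))
      = (1 / Real.cosh a ^ 2) * Real.exp (-(2 * c) * b ^ 2) := by
  have e : 2 * (-Real.log (Real.cosh a) - c * b ^ 2)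
      = -(Real.log (Real.cosh a) + Real.log (Real.cosh a)) + -(2 * c) * b ^ 2 := by ring
  rw [e, Real.exp_add, Real.exp_neg, Real.exp_add, Real.exp_log (Real.cosh_pos a)]
  congr 1
  rw [one_div, pow_two]

/-- For every positive real number `A` there is a real-analytic function `u` on the Euclidean plane
with `Δ u + exp (2 * u) ≤ 0` everywhere (so the conformal metric `exp (2 * u) * |dx|^2` has Gaussian
curvature at least `1`) whose total area `∫ exp (2 * u)` is finite and equal to `A`. -/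
theorem result :
    ∀ A : ℝ, 0 < A → ∃ u : EuclideanSpace ℝ (Fin 2) → ℝ,
      ContDiff ℝ ⊤ u ∧
      (∀ x, Laplacian.laplacian u x + Real.exp (2 * u x) ≤ 0) ∧
      Integrable (fun x => Real.exp (2 * u x)) ∧
      ∫ x, Real.exp (2 * u x) = A := by
  intro A hA
  set c : ℝ := 2 * π / A ^ 2 with hc
  have hcpos : 0 < c := by positivity
  set f : Fin 2 → ℝ → ℝ :=
    ![fun t => 1 / Real.cosh t ^ 2, fun t => Real.exp (-(2 * c) * t ^ 2)] with hf
  refine ⟨fun x => -Real.log (Real.cosh (p 0 x)) - c * (p 1 x) ^ 2, ?_, ?_, ?_, ?_⟩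
  · have h0 : ContDiff ℝ ⊤ (fun x : EuclideanSpace ℝ (Fin 2) => p 0 x) := (p 0).contDiff
    have h1 : ContDiff ℝ ⊤ (fun x : EuclideanSpace ℝ (Fin 2) => p 1 x) := (p 1).contDiff
    have h2 : ContDiff ℝ ⊤ (fun x : EuclideanSpace ℝ (Fin 2) => Real.cosh (p 0 x)) :=
      Real.contDiff_cosh.comp h0
    exact ((h2.log (fun x => (Real.cosh_pos _).ne')).neg).sub (contDiff_const.mul (h1.pow 2))
  · intro x
    rw [laplacian_u, exp_two_u]
    have h1 : Real.exp (-(2 * c) * (p 1 x) ^ 2) ≤ 1 := by
      apply Real.exp_le_one_iff.mpr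
      nlinarith [sq_nonneg (p 1 x)]
    have h2 : 0 ≤ 1 / Real.cosh (p 0 x) ^ 2 := by positivity
    nlinarith [mul_le_mul_of_nonneg_left h1 h2]
  · simp only [exp_two_u]
    rw [← (PiLp.volume_preserving_toLp (Fin 2)).integrable_comp_emb
      (MeasurableEquiv.toLp 2 _).measurableEmbedding]
    have hint : Integrable (fun v : Fin 2 → ℝ => ∏ i, f i (v i)) := by
      refine Integrable.fintype_prod (f := f) (fun i => ?_)
      fin_cases i
      · exact integrable_sech
      · exact integrable_exp_neg_mul_sq (by positivity)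
    refine hint.congr (Eventually.of_forall fun v => ?_)
    simp [f, Fin.prod_univ_two, Function.comp]
  · simp only [exp_two_u]
    rw [← (PiLp.volume_preserving_toLp (Fin 2)).integral_comp
      (MeasurableEquiv.toLp 2 _).measurableEmbedding]
    have h1 : (fun v : Fin 2 → ℝ => 1 / Real.cosh (p 0 (WithLp.toLp 2 v)) ^ 2
        * Real.exp (-(2 * c) * (p 1 (WithLp.toLp 2 v)) ^ 2)) = fun v => ∏ i, f i (v i) := by
      funext v
      simp [f, Fin.prod_univ_two]
    rw [h1, integral_fintype_prod_volume_eq_prod, Fin.prod_univ_two]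
    have h2 : ∫ t : ℝ, f 0 t = 2 := integral_sech
    have h3 : ∫ t : ℝ, f 1 t = √(π / (2 * c)) := integral_gaussian (2 * c)
    rw [h2, h3]
    have h4 : π / (2 * c) = (A / 2) ^ 2 := by
      rw [hc]
      field_simp
    rw [h4, Real.sqrt_sq (by positivity)]
    ring

end Pool.Agent.Results.MP_3ddb5a_an.AreaUnbounded
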